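import Pool.Agent.Helper26.SK.G.Final

namespace Pool.Agent.Results.MP_05e0c2_gt.CenterCounterexample

open Pool.Agent.Helper26.SK

/-- Q1 has a negative answer: for every `d ≥ 3` and every `n > 1` dividing `d` there are nonzero
`a = q^{1/d}` such that `a ^ 2 = q^{2/d}` is a primitive `n`-th root of unity, and for each of them
the center of the `SL_d`-skein algebra of the disc with three punctures (equivalently, of the
sphere minus four points) contains an element outside the subalgebra generated by the puncture
skeins and by the skeins obtained by threading the reduced power elementary polynomials along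
knots. -/
theorem result : ∀ d n : ℕ, 3 ≤ d → 1 < n → n ∣ d →
    (∃ a : ℂ, IsPrimitiveRoot (a ^ 2) n) ∧
    ∀ a : ℂ, IsPrimitiveRoot (a ^ 2) n →
      ∃ x ∈ center d a 3, x ∉ generated d a 3 n := by
  intro d n hd hn hnd
  refine ⟨?_, fun a ha => G.counterexample hd hn hnd ha⟩
  have h := Complex.isPrimitiveRoot_exp n (by omega)
  obtain ⟨b, hb⟩ := IsAlgClosed.exists_pow_nat_eq (Complex.exp (2 * Real.pi * Complex.I / n))
    (n := 2) (by norm_num)
  exact ⟨b, hb ▸ h⟩

end Pool.Agent.Results.MP_05e0c2_gt.CenterCounterexample
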